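import Mathlib
import Pool.Agent.E8helper13.Gen.Fin

/-!
# Artin's holomorphy conjecture: reduction to Galois groups with few generators

`Pool.Agent.H541R3.ART.Irr G` is the set of irreducible complex characters of the finite group `G`.

`Pool.Agent.H541R3.ART.ArtinData G s₀` is a family of functions with the formal properties of the
Artin L-functions of a Galois extension `E/K` with group `G` near a point `s₀ ≠ 1`: functions
`L χ` for the irreducible characters `χ` of `G` and `Lin H ψ` for the linear characters `ψ` of the
subgroups `H`, such that `L χ` is meromorphic and not identically zero near `s₀` (Brauer), `Lin H ψ`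
has no pole at `s₀` (Artin reciprocity and Hecke), and `Lin H ψ` is the product of the
`L χ ^ ⟨χ|_H, ψ⟩` (induction). So `Lin H ψ` stands for the Hecke L-function of `ψ` over the fixed
field of `H`, and `Lin ⊥ 1` for the Dedekind zeta function of `E`.

For an irreducible character `ψ` of a subgroup `H`, the Artin L-function of `ψ` is an Artin
L-function of the extension `E/E^H` with group `H`; by induction it is the product of the
`L χ ^ ⟨χ|_H, ψ⟩`. `Pool.Agent.E8helper13.Gen.HasPole A H ψ` says that it has a pole at `s₀`.

For a linear character `μ` of a normal subgroup `N` of `G`, the irreducible character `χ` of `G`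
lies over `μ` if the restriction of `χ` to `N` contains `μ`, that is, if
`∑ᶠ n : N, χ n * (μ n)⁻¹ ≠ 0`; `Pool.Agent.R362.stab N μ` is the stabilizer of `μ` in `G`. For a
group `H` between `N` and the stabilizer, the irreducible character `ψ` of `H` lies over `μ` if the
restriction of `ψ` to `N` is `ψ 1` times `μ` (`Pool.Agent.E8helper13.Gen.Over`).

`Pool.Agent.E8helper13.Gen.Detects A g`, for a tuple `g` of elements of `G`: for the group `H`
generated by the entries of `g`, the Artin L-function of some irreducible character of `H` has a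
pole at `s₀`. `Pool.Agent.E8helper13.Gen.DetectsOver A N μ g`, for a tuple `g` of elements of the
stabilizer of `μ`: for the group `H` generated by `N` and the entries of `g`, the Artin L-function
of some irreducible character of `H` over `μ` has a pole at `s₀`.
-/

set_option autoImplicit false

open Pool.Agent.H541R3.ART Pool.Agent.R362 Pool.Agent.E8helper13.Gen

/-- Let `G` be the Galois group of `E/K`, an arbitrary finite group.

Absolute part (second half of the statement). Suppose that the zeta function of `E` has a zero of
order `r` at `s₀`. Let `m` be a number with `max 2 r ≤ m` or `4 r ^ 2 ≤ 2 ^ m`. Then some Artin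
L-function of `E/K` has a pole at `s₀` if and only if there are `m` elements of `G` such that for
the group `H` generated by them some Artin L-function of `E/E^H` has a pole at `s₀`. So the
holomorphy at `s₀` of all Artin L-functions of `E/K` is equivalent to that for the subextensions
whose Galois groups have at most `min (max 2 r) ⌈2 log₂ (2 r)⌉` generators. If some Artin
L-function of `E/K` has a pole at `s₀`, then this happens for a positive proportion of the tuples
which depends only on `r`: for at least `|G| ^ m / (24 r ^ 4)` of the `m`-tuples if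
`8 r ^ 2 ≤ 2 ^ m`, and for at least `|G| ^ r / ((r + 3) (r (r + 1) ⋯ (2 r)) ^ 2)` of the
`r`-tuples.

Relative part (first half). The same for the Artin L-functions over a linear character `μ` of a
normal subgroup `N`, where `r` is the order at `s₀` of the Hecke L-function of `μ`, the tuples are
tuples of elements of the stabilizer of `μ`, and `H` is the group generated by `N` and the entries
of the tuple. -/
theorem Pool.Agent.Results.MP_d2121a_nt.FewGeneratorsH13.result
    (G : Type) [Group G] [Finite G] (s₀ : ℂ) (A : ArtinData G s₀) :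
    (∀ (N : Subgroup G) [N.Normal] (μ : N →* ℂˣ) (r : ℕ), meromorphicOrderAt (A.Lin N μ) s₀ = r →
      (∀ m : ℕ, (2 ≤ m ∧ r ≤ m) ∨ 4 * r ^ 2 ≤ 2 ^ m →
        ((∃ χ ∈ Irr G, (∑ᶠ n : N, χ n * (((μ n)⁻¹ : ℂˣ) : ℂ) ≠ 0) ∧
            meromorphicOrderAt (A.L χ) s₀ < 0) ↔
          ∃ g : Fin m → stab N μ, DetectsOver A N μ g)) ∧
      ((∃ χ ∈ Irr G, (∑ᶠ n : N, χ n * (((μ n)⁻¹ : ℂˣ) : ℂ) ≠ 0) ∧
          meromorphicOrderAt (A.L χ) s₀ < 0) →
        (∀ m : ℕ, 8 * r ^ 2 ≤ 2 ^ m → Nat.card (stab N μ) ^ m ≤
          24 * r ^ 4 * Nat.card {g : Fin m → stab N μ // DetectsOver A N μ g}) ∧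
        Nat.card (stab N μ) ^ r ≤ (r + 3) * (∏ i ∈ Finset.range (r + 1), (r + i)) ^ 2 *
          Nat.card {g : Fin r → stab N μ // DetectsOver A N μ g})) ∧
    (∀ r : ℕ, meromorphicOrderAt (A.Lin ⊥ 1) s₀ = r →
      (∀ m : ℕ, (2 ≤ m ∧ r ≤ m) ∨ 4 * r ^ 2 ≤ 2 ^ m →
        ((∃ χ ∈ Irr G, meromorphicOrderAt (A.L χ) s₀ < 0) ↔ ∃ g : Fin m → G, Detects A g)) ∧
      ((∃ χ ∈ Irr G, meromorphicOrderAt (A.L χ) s₀ < 0) →
        (∀ m : ℕ, 8 * r ^ 2 ≤ 2 ^ m →
          Nat.card G ^ m ≤ 24 * r ^ 4 * Nat.card {g : Fin m → G // Detects A g}) ∧
        Nat.card G ^ r ≤ (r + 3) * (∏ i ∈ Finset.range (r + 1), (r + i)) ^ 2 *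
          Nat.card {g : Fin r → G // Detects A g})) :=
  ⟨fun N _ μ r hr => few_generators A N μ r hr, fun r hr => few_generators' A r hr⟩
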