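import Mathlib
import Pool.Agent.E8helper9.KT.Fin3

/-!
# Artin's holomorphy conjecture: kernels

`Pool.Agent.H541R3.ART.Irr G` is the set of irreducible complex characters of the finite group `G`.

`Pool.Agent.H541R3.ART.ArtinData G s₀` is a family of functions with the formal properties of the
Artin L-functions of a Galois extension `E/K` with group `G` near a point `s₀ ≠ 1`: functions
`L χ` for the irreducible characters `χ` of `G` and `Lin H ψ` for the linear characters `ψ` of the
subgroups `H`, such that `L χ` is meromorphic and not identically zero near `s₀` (Brauer), `Lin H ψ`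
has no pole at `s₀` (Artin reciprocity and Hecke), and `Lin H ψ` is the product of the
`L χ ^ ⟨χ|_H, ψ⟩` (induction). So `Lin H ψ` stands for the Hecke L-function of `ψ` over the fixed
field of `H`, `Lin H 1` for the Dedekind zeta function of this field, and `Lin ⊥ 1` for the zeta
function of `E`.

`Pool.Agent.E8helper9.KT.NontrivOver N₀ μ N`, for a linear character `μ` of the subgroup `N₀` and a
family `N 1, ..., N t` of subgroups, is the set of the irreducible characters `χ` of `G` with
`χ (x n) = μ n χ x` for all `x` in `G` and `n` in `N₀` which are nontrivial on each `N i`. If `N₀`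
is trivial, then the first condition is empty.

If the `N i` are normal and commute with each other pairwise and `N₀` is trivial, then the product
`R` of the `L χ ^ χ 1` over the `χ` in this set is the product of the
`ζ_{E^{N_I}} ^ ((-1) ^ |I|)`, where `I` runs through the subsets of `{1, ..., t}` and `N_I` is the
product of the `N i` with `i` in `I`. For `t = 1` this is the quotient `ζ_E / ζ_{E^N}` of the
theorem of Aramata and Brauer; the zero-free case for `t = 1` follows with Brauer's induction
theorem from the result `MP_9fc8a5_nt.EqualOrders` of the starting files. For `t = 2` and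
`N 1 ∩ N 2 = 1`, Brauer proved that `R` has no poles. The theorem says in general that `R` is
holomorphic, that it can only be nonzero at `s₀` if all its factors are, and that it has a zero if
some factor has a zero or a pole.

Sketch of the proof. The orders of the `L χ` at `s₀` are the coefficients of a virtual character
`θ` of `G` whose restriction to every abelian subgroup is a character (Heilbronn). Let
`σ` be the sum of the terms with `χ (x n) = μ n χ x`. For `x i ∈ N i` the iterated
difference of `σ` with respect to `x 1, ..., x t` at `1` has a nonnegative real part since the `x i`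
generate an abelian group; the mean value is the order of `R`. If it is zero, then all the
iterated differences at `1` are zero; a counting argument in the cosets of the `N i` shows that the
iterated differences at all elements `y` are zero, which means that all the coefficients of
`σ` in question vanish. If the `N i` are perfect and `σ 1 < 2 ^ t`, then the iterated differences at
`1` are zero: this is an induction on `t`, which replaces `σ` by its parts over the linear
characters of the cyclic subgroups of `N t` and uses that a function of this kind on a perfect group
is constant if its value at `1` is at most `1`.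
-/

set_option autoImplicit false

open Pool.Agent.H541R3.ART Pool.Agent.R362 Pool.Agent.E8helper9.KT

/-- Let `G` be the Galois group of `E/K`, an arbitrary finite group, and let `μ` be a linear
character of a normal subgroup `N₀` of `G` which is invariant under the conjugation by `G`
(for instance `N₀ = 1`).

Let `N 1, ..., N t` be normal subgroups of `G` such that `N i` and `N j` commute elementwise for
`i ≠ j`. Let `R` be the product of the `L χ ^ χ 1` over all the irreducible `χ` with
`χ (x n) = μ n χ x` for `n` in `N₀` which are nontrivial on every `N i`. Then `R` has
no pole at `s₀`. If `R` has no zero at `s₀`, then none of these `L χ` has a zero or a pole at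
`s₀`; the same holds if the `N i` are perfect groups and the order at `s₀` of the Hecke L-function
of `μ` is less than `2 ^ t`. -/
theorem Pool.Agent.Results.MP_d2121a_nt.KernelTheoremH9.result
    (G : Type) [Group G] [Finite G] (s₀ : ℂ) (A : ArtinData G s₀) (N₀ : Subgroup G) [N₀.Normal]
    (μ : N₀ →* ℂˣ) (hμ : ∀ (g : G) (n : N₀), μ (MulAut.conjNormal g n) = μ n)
    (t : ℕ) (N : Fin t → Subgroup G) (hN : ∀ i, (N i).Normal)
    (hc : ∀ i j, i ≠ j → ∀ x ∈ N i, ∀ y ∈ N j, x * y = y * x)
    (d : (G → ℂ) → ℕ) (hd : ∀ χ ∈ Irr G, χ 1 = d χ) :
    0 ≤ meromorphicOrderAt (fun s => ∏ᶠ χ ∈ NontrivOver N₀ μ N, A.L χ s ^ d χ) s₀ ∧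
    ((meromorphicOrderAt (fun s => ∏ᶠ χ ∈ NontrivOver N₀ μ N, A.L χ s ^ d χ) s₀ = 0 ∨
        ((∀ i, Group.IsPerfect (N i)) ∧
          ∃ a : ℕ, meromorphicOrderAt (A.Lin N₀ μ) s₀ = a ∧ a < 2 ^ t)) →
      ∀ χ ∈ NontrivOver N₀ μ N, meromorphicOrderAt (A.L χ) s₀ = 0) := by
  have h := kernel_art A N₀ μ hμ t N hN hc d hd
  refine ⟨h.1, ?_⟩
  rintro (h0 | ⟨hp, a, ha, hlt⟩)
  · exact h.2 h0
  · intro χ hχ
    by_contra hne
    have := (perfect_art A N₀ μ hμ a ha t N hp hc χ hχ hne).1 hN
    omega
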