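import Mathlib
import Pool.Agent.E8helper13.Par.Art

/-!
# The orders of the Artin L-functions at a double zero, for arbitrary Galois groups

`Pool.Agent.H541R3.ART.Irr G` is the set of irreducible complex characters of the finite group `G`.

`Pool.Agent.H541R3.ART.ArtinData G s₀` is a family of functions with the formal properties of the
Artin L-functions of a Galois extension `E/K` with group `G` near a point `s₀ ≠ 1`: functions
`L χ` for the irreducible characters `χ` of `G` and `Lin H ψ` for the linear characters `ψ` of the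
subgroups `H`, such that `L χ` is meromorphic and not identically zero near `s₀` (Brauer), `Lin H ψ`
has no pole at `s₀` (Artin reciprocity and Hecke), and `Lin H ψ` is the product of the
`L χ ^ ⟨χ|_H, ψ⟩` (induction). So `Lin H ψ` stands for the Hecke L-function of `ψ` over the fixed
field of `H`, and `Lin ⊥ 1` for the Dedekind zeta function of `E`.

For a linear character `μ` of a normal subgroup `N` of `G`, the irreducible character `χ` of `G`
lies over `μ` if the restriction of `χ` to `N` contains `μ`, that is, if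
`∑ᶠ n : N, χ n * (μ n)⁻¹ ≠ 0`; `Pool.Agent.R362.stab N μ` is the stabilizer of `μ` in `G`, and
`Pool.Agent.R389.ind T ψ` is the character of `G` induced from `ψ`. For `N = 1` all `χ` lie over
`μ = 1`, and the stabilizer is `G`.

For a linear character `δ` of a finite group `T`, the irreducible characters `ψ` of `T` are of three
types: `ψ` is not equal to `δ` times the complex conjugate of `ψ` (`g ↦ ψ g⁻¹`); or it is, and the
representation of `ψ` has an invariant symmetric form with multiplier `δ` (`ψ` is `δ`-orthogonal);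
or it is, and there is an alternating form with multiplier `δ` (`ψ` is `δ`-symplectic). In the last
two cases the sum of `δ(t)⁻¹ ψ(t²)` over `T` is `|T|` or `-|T|` (Frobenius and Schur).
-/

set_option autoImplicit false

open Pool.Agent.H541R3.ART Pool.Agent.R362 Pool.Agent.R389

/-- Let `G` be the Galois group of `E/K`, an arbitrary finite group. Let `μ` be a linear character
of a normal subgroup `N` of `G` whose Hecke L-function has a zero of order two at `s₀` (for
`N = 1`: the zeta function of `E` has a double zero at `s₀`), and let `T` be the stabilizer of `μ`.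

There is a linear character `δ` of `T`, equal to `μ²` on `N`, such that every irreducible character
`χ` of `G` over `μ` is induced from an irreducible character `ψ` of `T` for which one of the
following holds: `ψ` is not `δ`-self-dual and `L χ` has order `0` or `1` at `s₀`; `ψ` is
`δ`-orthogonal and `L χ` has order `0`, or order `2` and `ψ` is linear; `ψ` is `δ`-symplectic, so that
its degree is even, and `L χ` has order `-1`, `0` or `1`.

At most two `L χ` with `χ` over `μ` have a pole at `s₀`, and at most three have a zero or a pole. In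
particular all poles are simple, and `L χ` has no pole at `s₀` if `χ 1 / [G : T]` is odd. -/
theorem Pool.Agent.Results.MP_d2121a_nt.OrdersAtDoubleZerosH13.result
    (G : Type) [Group G] [Finite G] (s₀ : ℂ) (A : ArtinData G s₀) (N : Subgroup G) [N.Normal]
    (μ : N →* ℂˣ) (h2 : meromorphicOrderAt (A.Lin N μ) s₀ = 2) :
    (∃ δ : stab N μ →* ℂˣ, (∀ n : N, δ ⟨n, le_stab N μ n.2⟩ = μ n ^ 2) ∧
      ∀ χ ∈ Irr G, (∑ᶠ n : N, χ n * (((μ n)⁻¹ : ℂˣ) : ℂ) ≠ 0) →
        ∃ ψ ∈ Irr (stab N μ), χ = ind (stab N μ) ψ ∧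
          (((∃ t, ψ t ≠ ((δ t : ℂˣ) : ℂ) * ψ t⁻¹) ∧
              (meromorphicOrderAt (A.L χ) s₀ = 0 ∨ meromorphicOrderAt (A.L χ) s₀ = 1)) ∨
            ((∀ t, ψ t = ((δ t : ℂˣ) : ℂ) * ψ t⁻¹) ∧
              (∑ᶠ t, (((δ t)⁻¹ : ℂˣ) : ℂ) * ψ (t ^ 2) = Nat.card (stab N μ)) ∧
              (meromorphicOrderAt (A.L χ) s₀ = 0 ∨
                (meromorphicOrderAt (A.L χ) s₀ = 2 ∧ ψ 1 = 1))) ∨
            ((∀ t, ψ t = ((δ t : ℂˣ) : ℂ) * ψ t⁻¹) ∧
              (∑ᶠ t, (((δ t)⁻¹ : ℂˣ) : ℂ) * ψ (t ^ 2) = - Nat.card (stab N μ)) ∧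
              (∃ k : ℕ, ψ 1 = 2 * k) ∧
              (meromorphicOrderAt (A.L χ) s₀ = -1 ∨ meromorphicOrderAt (A.L χ) s₀ = 0 ∨
                meromorphicOrderAt (A.L χ) s₀ = 1)))) ∧
    {χ ∈ Irr G | (∑ᶠ n : N, χ n * (((μ n)⁻¹ : ℂˣ) : ℂ) ≠ 0) ∧
      meromorphicOrderAt (A.L χ) s₀ < 0}.encard ≤ 2 ∧
    {χ ∈ Irr G | (∑ᶠ n : N, χ n * (((μ n)⁻¹ : ℂˣ) : ℂ) ≠ 0) ∧
      meromorphicOrderAt (A.L χ) s₀ ≠ 0}.encard ≤ 3 :=
  Pool.Agent.E8helper13.Par.orders A N μ h2
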