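import Mathlib
import Pool.Agent.E8helper9.KT.Fin4

/-!
# Artin's holomorphy conjecture: the projective images of the characters visible at a zero

`Pool.Agent.H541R3.ART.Irr G` is the set of irreducible complex characters of the finite group `G`.

`Pool.Agent.H541R3.ART.ArtinData G s₀` is a family of functions with the formal properties of the
Artin L-functions of a Galois extension `E/K` with group `G` near a point `s₀ ≠ 1`: functions
`L χ` for the irreducible characters `χ` of `G` and `Lin H ψ` for the linear characters `ψ` of the
subgroups `H`, such that `L χ` is meromorphic and not identically zero near `s₀` (Brauer), `Lin H ψ`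
has no pole at `s₀` (Artin reciprocity and Hecke), and `Lin H ψ` is the product of the
`L χ ^ ⟨χ|_H, ψ⟩` (induction). So `Lin H ψ` stands for the Hecke L-function of `ψ` over the fixed
field of `H`, and `Lin ⊥ 1` for the Dedekind zeta function of `E`.

For a linear character `μ` of a normal subgroup `N` of `G`, the irreducible character `χ` of `G`
lies over `μ` if the restriction of `χ` to `N` contains `μ`, that is, if
`∑ᶠ n : N, χ n * (μ n)⁻¹ ≠ 0`; `Pool.Agent.R362.stab N μ` is the stabilizer of `μ` in `G`.

`Pool.Agent.E8helper9.AD.Induced T ψ χ`: `χ` is induced from the function `ψ` of the subgroup `T`,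
by the formula for induced characters.

`Pool.Agent.E8helper9.AD.Centre T Z _ ψ ω`: the subgroup `Z` of `T` is the centre of the character
`ψ` of `T`, that is, the group of the elements which act by scalars, and `ω` is the central
character. So the image of `T` in the projective linear group under a representation with the
character `ψ` is isomorphic to `T / Z`, and to the group `P` if `π : T →* P` is surjective with the
kernel `Z`.

`Pool.Agent.E8helper9.KT.Shape P k D F e` says that `F` is an abelian normal subgroup of `P` of
order `D ^ 2` with the invariant symplectic pairing `e`, completely reducible under `P`, where `D`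
divides `k`; that the solvable normal subgroups `R` of `P` have order at most `D ^ 7` and
`C_R(F) ≤ F`; that `C_P(F)` has subgroups `S 1, ..., S t` with `2 t D ≤ k`, perfect and simple
modulo their intersection with `F`, which commute pairwise and are permuted by `P`, such that the
centralizer of `F S 1 ⋯ S t` in `P` is contained in `F`; and that any `t` nontrivial perfect
subgroups of `P` which commute pairwise satisfy `2 ^ t ≤ k` if they are normal, `2 t ≤ k` if they
are permuted by `P`, and `2 ^ t D ≤ k` and `2 t D ≤ k` if moreover they commute with `F`.

Sketch of the proof. The orders of the `L χ` are the coefficients of a virtual character `θ` of `G`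
with `θ 1 = ord ζ_E` whose multiplicities against the linear characters of the subgroups are
natural numbers. If `⟨θ, χ⟩ ≠ 0` and some abelian normal subgroup is not central modulo the kernel
of `χ`, one passes to the stabilizer of one of its characters. Otherwise let `Z` be the centre and
`S` the solvable radical. There is a normal subgroup `F` between `Z` and `S` with `F / Z` abelian of
order `D ^ 2` and completely reducible under the conjugation by `G`, such that `S / F` acts
faithfully on it; its order is bounded by a bound for solvable completely reducible groups. The
restriction of the part `τ` of `θ` over `ω` to the product of `F` and a subgroup `K` which commutes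
with `F` is the product of `D` and a function on `K` with the same properties as `θ`. A nonconstant
function of this kind on a perfect group has a value at least `2` at `1`; if it is nonconstant on
each of several commuting subgroups, then one can split off, and this leads to the bounds `2 t` and
`2 ^ t`. If `τ` is constant on one of the permuted subgroups, then it is constant on the normal
subgroup which they generate, and a counting argument in its cosets shows that all the characters
with nonzero multiplicity in `τ` are trivial on it.
-/

set_option autoImplicit false

open Pool.Agent.H541R3.ART Pool.Agent.R362 Pool.Agent.E8helper9.AD Pool.Agent.E8helper9.KT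

/-- Let `G` be the Galois group of `E/K`, an arbitrary finite group, and call an irreducible
character `χ` visible at `s₀` if its Artin L-function has a zero or a pole at `s₀`.

(1) Let `μ` be a linear character of a normal subgroup `N` of `G` whose Hecke L-function has order
`a` at `s₀`, and let the visible character `χ` lie over `μ`. Then `χ` is induced from an
irreducible character `ψ` of a subgroup `T` of the stabilizer of `μ`, such that the centre `Z` of
`ψ` contains `N` and the central character `ω` of `ψ` extends `μ`; if `k` is the order at `s₀` of
the Hecke L-function of `ω`, then `0 < k` and `[stab μ : T] k ≤ a`; and there is a divisor `D` of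
`k` and `ψ 1` such that the projective image `P = T / Z` of `ψ` has the shape given by `k` and `D`.

(2) In particular let the zeta function of `E` have order `r` at `s₀` and let `S` be a solvable
normal subgroup of `G`. Then the degree of every visible `χ` has a divisor `m ≤ r` such that
`χ 1 ^ 2 ≤ [G : S] m ^ 7`. -/
theorem Pool.Agent.Results.MP_d2121a_nt.StructureH9.result
    (G : Type) [Group G] [Finite G] (s₀ : ℂ) (A : ArtinData G s₀) :
    (∀ (N : Subgroup G) [N.Normal] (μ : N →* ℂˣ) (a : ℕ), meromorphicOrderAt (A.Lin N μ) s₀ = a →
      ∀ χ ∈ Irr G, ∑ᶠ n : N, χ n * (((μ n)⁻¹ : ℂˣ) : ℂ) ≠ 0 → meromorphicOrderAt (A.L χ) s₀ ≠ 0 →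
      ∃ (T Z : Subgroup G) (hNZ : N ≤ Z) (hZT : Z ≤ T) (ψ : T → ℂ) (ω : Z →* ℂˣ) (d k D : ℕ)
        (P : Type) (_ : Group P) (π : T →* P) (F : Subgroup P) (e : F → F → ℂˣ),
        T ≤ stab N μ ∧ ψ ∈ Irr T ∧ ψ 1 = d ∧ Induced T ψ χ ∧ Centre T Z hZT ψ ω ∧
        (∀ n : N, ω ⟨n, hNZ n.2⟩ = μ n) ∧ meromorphicOrderAt (A.Lin Z ω) s₀ = k ∧ 0 < k ∧
        T.relIndex (stab N μ) * k ≤ a ∧ D ∣ d ∧ d ^ 2 ≤ Z.relIndex T ∧
        Function.Surjective π ∧ (∀ t : T, π t = 1 ↔ (t : G) ∈ Z) ∧ Shape P k D F e) ∧
    (∀ r : ℕ, meromorphicOrderAt (A.Lin ⊥ 1) s₀ = r →
      ∀ S : Subgroup G, S.Normal → Group.IsSolvable S →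
      ∀ χ ∈ Irr G, meromorphicOrderAt (A.L χ) s₀ ≠ 0 →
      ∀ e : ℕ, χ 1 = e → ∃ m : ℕ, m ∣ e ∧ m ≤ r ∧ e ^ 2 ≤ S.index * m ^ 7) :=
  ⟨fun N _ μ a ha χ hχ hχμ hne => structure_over A N μ a ha χ hχ hχμ hne,
    fun r hr S hSn hSs χ hχ hne e he => degree_bound A r hr S hSn hSs χ hχ hne e he⟩
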